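import Pool.Agent.N13.EU.Defs

/-!
# BR: `chiL` is the Euler characteristic of the group of the link

By helper547, for project EU of helper13.
-/

set_option autoImplicit false

namespace Pool.Agent.N13.EU

open Pool.Agent.W907.SG Pool.Agent.W907.SM

theorem Br.chi_filter {V : Type} [Fintype V] (G : SimpleGraph V)
    [DecidablePred fun T : Finset V => G.IsClique (T : Set V)] :
    chiW G = ∑ T ∈ Finset.univ.filter (fun T : Finset V => G.IsClique (T : Set V)),
      (-1 / 2 : ℚ) ^ T.card := by
  rw [chiW, Finset.sum_filter]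
  exact Finset.sum_congr rfl fun S _ => by congr

open Classical in
theorem Br.chiL_filter {V : Type} [Fintype V] (G : SimpleGraph V) (T : Finset V) :
    chiL G T = ∑ S ∈ Finset.univ.filter (fun S : Finset V => Disjoint S T ∧
      G.IsClique ((S ∪ T : Finset V) : Set V)), (-1 / 2 : ℚ) ^ S.card := by
  rw [chiL, Finset.sum_filter]

theorem t_BR : S_BR := by
  classical
  intro V _ G T _ hT
  rw [Br.chi_filter, Br.chiL_filter]
  symm
  refine Finset.sum_bij (fun S _ => S.map (Function.Embedding.subtype _)) ?_ ?_ ?_ ?_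
  · intro S hS
    have hS' := (Finset.mem_filter.1 hS).2
    refine Finset.mem_filter.2 ⟨Finset.mem_univ _, ?_, ?_⟩
    · rw [Finset.disjoint_left]
      intro x hx hxT
      obtain ⟨a, -, rfl⟩ := Finset.mem_map.1 hx
      exact (a.2 _ hxT).ne rfl
    · intro x hx y hy hxy
      rw [Finset.mem_coe, Finset.mem_union] at hx hy
      rcases hx with hx | hx <;> rcases hy with hy | hy
      · obtain ⟨a, ha, rfl⟩ := Finset.mem_map.1 hx
        obtain ⟨b, hb, rfl⟩ := Finset.mem_map.1 hy
        exact hS' ha hb fun h => hxy (congrArg Subtype.val h)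
      · obtain ⟨a, ha, rfl⟩ := Finset.mem_map.1 hx
        exact a.2 _ hy
      · obtain ⟨b, hb, rfl⟩ := Finset.mem_map.1 hy
        exact (b.2 _ hx).symm
      · exact hT hx hy hxy
  · intro S _ S' _ h
    exact Finset.map_injective _ h
  · intro σ hσ
    obtain ⟨h1, h2⟩ := (Finset.mem_filter.1 hσ).2
    have h3 : ∀ x ∈ σ, x ∈ lk G T := fun x hx u hu =>
      h2 (Finset.mem_coe.2 (Finset.mem_union_left _ hx))
        (Finset.mem_coe.2 (Finset.mem_union_right _ hu))
        fun h => (Finset.disjoint_left.1 h1 hx) (h ▸ hu)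
    refine ⟨σ.subtype (fun x => x ∈ lk G T), Finset.mem_filter.2 ⟨Finset.mem_univ _, ?_⟩, ?_⟩
    · intro a ha b hb hab
      rw [Finset.mem_coe, Finset.mem_subtype] at ha hb
      exact h2 (Finset.mem_coe.2 (Finset.mem_union_left _ ha))
        (Finset.mem_coe.2 (Finset.mem_union_left _ hb)) fun h => hab (Subtype.ext h)
    · rw [Finset.subtype_map]
      exact Finset.filter_true_of_mem h3
  · intro S _
    rw [Finset.card_map]

end Pool.Agent.N13.EU
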