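import Pool.Agent.N13.EU.Defs

/-!
# Project EU of helper13, leaf TAY: the Taylor expansion of the `f`-polynomial at `-1/2` (helper914)
-/

set_option autoImplicit false

namespace Pool.Agent.N13.EU

open Pool.Agent.W907.SG Pool.Agent.W907.SM

namespace Tay

open Polynomial

lemma dvd_iff (f : ℚ[X]) (k : ℕ) :
    (1 + 2 * X : ℚ[X]) ^ k ∣ f ↔ ∀ j < k, (hasseDeriv j f).eval (-1 / 2 : ℚ) = 0 := by
  have h1 : (1 + 2 * X : ℚ[X]) = C 2 * (X - C (-1 / 2 : ℚ)) := by
    rw [mul_sub, ← C_mul]
    norm_num
    have : (C (2 : ℚ) : ℚ[X]) = 2 := rfl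
    rw [this]
    ring
  have hu : IsUnit ((C (2 : ℚ) : ℚ[X]) ^ k) := (isUnit_C.2 (by norm_num)).pow k
  rw [h1, mul_pow, hu.mul_left_dvd, X_sub_C_pow_dvd_iff, ← taylor_apply, X_pow_dvd_iff]
  simp only [taylor_coeff]

open Classical in
lemma hasse_fpoly {V : Type} [Fintype V] (G : SimpleGraph V) (j : ℕ) (x : ℚ) :
    (hasseDeriv j (fpoly G)).eval x = ∑ S : Finset V, if G.IsClique (S : Set V) then
      (S.card.choose j : ℚ) * x ^ (S.card - j) else 0 := by
  unfold fpoly
  rw [map_sum, eval_finset_sum]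
  apply Finset.sum_congr rfl
  intro S _
  split_ifs with h
  · rw [← monomial_one_right_eq_X_pow, hasseDeriv_monomial, eval_monomial, mul_one]
  · rw [map_zero, eval_zero]

open Classical in
lemma chiL_eq {V : Type} [Fintype V] (G : SimpleGraph V) (T : Finset V) :
    chiL G T = ∑ S : Finset V, if T ⊆ S ∧ G.IsClique (S : Set V) then
      (-1 / 2 : ℚ) ^ (S.card - T.card) else 0 := by
  unfold chiL
  rw [← Finset.sum_filter, ← Finset.sum_filter]
  refine Finset.sum_bij' (fun S _ => S ∪ T) (fun S _ => S \ T) ?_ ?_ ?_ ?_ ?_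
  · intro S hS
    rw [Finset.mem_filter] at hS ⊢
    exact ⟨Finset.mem_univ _, Finset.subset_union_right, hS.2.2⟩
  · intro S hS
    rw [Finset.mem_filter] at hS ⊢
    refine ⟨Finset.mem_univ _, Finset.sdiff_disjoint, ?_⟩
    rw [Finset.sdiff_union_of_subset hS.2.1]
    exact hS.2.2
  · intro S hS
    rw [Finset.mem_filter] at hS
    rw [Finset.union_sdiff_right]
    exact Finset.sdiff_eq_self_of_disjoint hS.2.1
  · intro S hS
    rw [Finset.mem_filter] at hS
    exact Finset.sdiff_union_of_subset hS.2.1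
  · intro S hS
    rw [Finset.mem_filter] at hS
    rw [Finset.card_union_of_disjoint hS.2.1, Nat.add_sub_cancel]

open Classical in
lemma sum_eq {V : Type} [Fintype V] (G : SimpleGraph V) (j : ℕ) :
    ∑ T : Finset V, (if G.IsClique (T : Set V) ∧ T.card = j then chiL G T else 0) =
      ∑ S : Finset V, if G.IsClique (S : Set V) then
        (S.card.choose j : ℚ) * (-1 / 2 : ℚ) ^ (S.card - j) else 0 := by
  have h1 : ∀ T : Finset V, (if G.IsClique (T : Set V) ∧ T.card = j then chiL G T else 0) =
      ∑ S : Finset V, if G.IsClique (S : Set V) then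
        (if T ∈ S.powersetCard j then (-1 / 2 : ℚ) ^ (S.card - j) else 0) else 0 := by
    intro T
    split_ifs with h
    · rw [chiL_eq]
      apply Finset.sum_congr rfl
      intro S _
      by_cases hS : G.IsClique (S : Set V)
      · by_cases hT : T ⊆ S
        · rw [if_pos ⟨hT, hS⟩, if_pos hS, if_pos (Finset.mem_powersetCard.2 ⟨hT, h.2⟩), h.2]
        · rw [if_neg (fun hh => hT hh.1), if_pos hS,
            if_neg (fun hh => hT (Finset.mem_powersetCard.1 hh).1)]
      · rw [if_neg (fun hh => hS hh.2), if_neg hS]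
    · symm
      apply Finset.sum_eq_zero
      intro S _
      by_cases hS : G.IsClique (S : Set V)
      · rw [if_pos hS, if_neg]
        intro hT
        obtain ⟨h2, h3⟩ := Finset.mem_powersetCard.1 hT
        apply h
        refine ⟨?_, h3⟩
        exact hS.subset (by exact_mod_cast h2)
      · rw [if_neg hS]
  rw [Finset.sum_congr rfl fun T _ => h1 T, Finset.sum_comm]
  apply Finset.sum_congr rfl
  intro S _
  split_ifs with hS
  · rw [Finset.sum_ite_mem, Finset.univ_inter, Finset.sum_const, Finset.card_powersetCard,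
      nsmul_eq_mul]
  · simp

end Tay

theorem t_TAY : S_TAY := by
  intro V _ G k
  rw [Tay.dvd_iff]
  refine forall_congr' fun j => forall_congr' fun _ => ?_
  rw [Tay.hasse_fpoly, Tay.sum_eq]

end Pool.Agent.N13.EU
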