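import Pool.Agent.N13.EU.Core
import Pool.Agent.N13.EU.Tay
import Pool.Agent.N13.EU.Br
import Pool.Agent.R703.MO.Main

/-!
# The class `ER n` of finite graphs

By helper13, with helper914 (`Tay`) and helper547 (`Br`).
-/

set_option autoImplicit false
set_option linter.unusedSectionVars false

namespace Pool.Agent.N13.EU

open Pool.Agent.W907.SG Pool.Agent.W907.SM Pool.Agent.TH652.Above Pool.Agent.Y132.SI
open Pool.Agent.R781.VS (AR Q_of_AR Q_restrict Q_split con NoSq)
open Pool.Agent.TH652.Join (join)
open Polynomial (X C)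

/-- The class `ER n`: the closure of the class `AR n` under its own operations and under the rules `zer` and
`red`, which use the Euler characteristics of the links in homology spheres. -/
inductive ER : ℕ → ∀ {V : Type}, SimpleGraph V → Prop
  /-- the members of the class `AR n` -/
  | ar {n : ℕ} {V : Type} (G : SimpleGraph V) : AR n G → ER n G
  /-- zeros of the `f`-polynomial: a homology sphere of dimension `n - 1`, all links in the class, whose
  `f`-polynomial has a zero of order at least `k` at `-1/2`, is in the class `n - k` -/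
  | zer {n k : ℕ} {V : Type} [Fintype V] [LinearOrder V] (G : SimpleGraph V) : HSph n G →
      (∀ T : Finset V, G.IsClique (T : Set V) → ER (n - T.card) (G.induce (lk G T))) →
      (1 + 2 * X : Polynomial ℚ) ^ k ∣ fpoly G → ER (n - k) G
  /-- odd length: a homology sphere of dimension `2 m` is in the class if the proper links are, and the full
  subcomplex spanned by the vertices whose links have nonzero Euler characteristic -/
  | red {m : ℕ} {V : Type} [Fintype V] [LinearOrder V] (G : SimpleGraph V) : HSph (2 * m + 1) G →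
      (∀ T : Finset V, G.IsClique (T : Set V) → T.Nonempty →
        ER (2 * m + 1 - T.card) (G.induce (lk G T))) →
      ER (2 * m + 1) (G.induce {v | chiL G {v} ≠ 0}) → ER (2 * m + 1) G
  /-- simplices: cliques with at most `m` elements only -/
  | dim {m : ℕ} {V : Type} [Finite V] (G : SimpleGraph V) :
      (∀ T : Finset V, G.IsClique (T : Set V) → T.card ≤ m) → ER (2 * m) G
  /-- at most `3 m + 2` vertices -/
  | few {m : ℕ} {V : Type} [Finite V] (G : SimpleGraph V) : Nat.card V ≤ 3 * m + 2 → ER (2 * m) G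
  /-- vertex splitting -/
  | split {n : ℕ} {V : Type} [Finite V] (G : SimpleGraph V) (s t : V) : G.Adj s t → NoSq G s t →
      ER (n + 2) ((con G s t).induce {t}ᶜ) → ER n (G.induce (G.neighborSet s ∩ G.neighborSet t)) →
      ER (n + 2) (G.induce (G.neighborSet s)) → ER (n + 2) (G.induce (G.neighborSet t)) → ER (n + 2) G
  /-- full subcomplexes -/
  | full {n : ℕ} {V : Type} (G : SimpleGraph V) (A : Set V) : ER n G → ER n (G.induce A)
  /-- joins -/
  | join {m n : ℕ} {V U : Type} (G : SimpleGraph V) (H : SimpleGraph U) : ER m G → ER n H → ER (m + n) (join G H)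
  /-- from `n` to `n + 1` -/
  | succ {n : ℕ} {V : Type} (G : SimpleGraph V) : ER n G → ER (n + 1) G
  /-- from `2 m + 1` to `2 m` -/
  | pred {m : ℕ} {V : Type} (G : SimpleGraph V) : ER (2 * m + 1) G → ER (2 * m) G
  /-- deleting an edge whose link is in the class `n` -/
  | del {n : ℕ} {V : Type} [Finite V] (G : SimpleGraph V) (s t : V) : G.Adj s t → ER (n + 2) G →
      ER n (G.induce (G.neighborSet s ∩ G.neighborSet t)) → ER (n + 2) (G.deleteEdges {s(s, t)})
  /-- even length: the vertices whose links are not in the class `2 m + 1` span a subcomplex of dimension at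
  most `m` -/
  | loc {m : ℕ} {V : Type} [Finite V] (G : SimpleGraph V) (B : Set V) :
      (∀ T : Finset V, G.IsClique (T : Set V) → (T : Set V) ⊆ B → T.card ≤ m + 1) →
      (∀ v, v ∉ B → ER (2 * m + 1) (G.induce (G.neighborSet v))) → ER (2 * m + 2) G
  /-- adding a vertex whose link is in the class `n` -/
  | vert {n : ℕ} {V : Type} [Finite V] (G : SimpleGraph V) (v : V) : ER (n + 2) (G.induce {v}ᶜ) →
      ER n (G.induce (G.neighborSet v)) → ER (n + 2) G
  /-- gluing along a full subcomplex of the class `n` -/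
  | glue {n : ℕ} {V : Type} [Finite V] (G : SimpleGraph V) (A B : Set V) : A ∪ B = Set.univ →
      (∀ a ∈ A, a ∉ B → ∀ b ∈ B, b ∉ A → ¬ G.Adj a b) → ER (n + 2) (G.induce A) → ER (n + 2) (G.induce B) →
      ER n (G.induce (A ∩ B)) → ER (n + 2) G
  /-- isomorphic graphs -/
  | iso {n : ℕ} {V U : Type} (G : SimpleGraph V) (H : SimpleGraph U) : Nonempty (G ≃g H) → ER n G → ER n H

theorem abv_of_Q {V : Type} {G : SimpleGraph V} {D : Set V} {r : ℕ} (h : Q r (G.induce D)) : Abv G D r :=
  fun A hA i hi => Q_restrict h A hA i hi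

theorem chi_iff_dvd {V : Type} [Fintype V] [LinearOrder V] {G : SimpleGraph V} {n : ℕ} (hS : HSph n G)
    (hH : ∀ T : Finset V, G.IsClique (T : Set V) → Abv G (lk G T) (n - T.card)) (k : ℕ) :
    (1 + 2 * X : Polynomial ℚ) ^ k ∣ fpoly G ↔
      ∀ T : Finset V, G.IsClique (T : Set V) → T.card < k → chiL G T = 0 := by
  classical
  rw [t_TAY V G k]
  constructor
  · intro h T hT hTk
    refine chi_sum t_BR hS hH T.card ?_ T hT rfl
    convert h T.card hTk
  · intro h j hj
    refine Finset.sum_eq_zero fun T _ => ?_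
    split_ifs with h1
    · exact h T h1.1 (by omega)
    · rfl

theorem Q_of_ER {n : ℕ} {V : Type} {G : SimpleGraph V} (h : ER n G) : Q n G := by
  classical
  induction h with
  | ar G h => exact Q_of_AR h
  | @zer n k V _ _ G hS _ hd ih =>
    have hH : ∀ T : Finset V, G.IsClique (T : Set V) → Abv G (lk G T) (n - T.card) :=
      fun T hT => abv_of_Q (ih T hT)
    refine ⟨inferInstance, fun A i hi => ?_⟩
    exact van_of_chi t_BR hS hH k ((chi_iff_dvd hS hH k).1 hd) A i (by omega)
  | @red m V _ _ G hS _ _ ih1 ih2 =>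
    have hH := her t_BR hS (fun T m' hT hm hm' => by
      rcases T.eq_empty_or_nonempty with h0 | h0
      · subst h0
        rw [Finset.card_empty] at hm
        refine Q_restrict ih2 _ (fun v hv => ?_) (m' + 1) (by omega)
        have := hv.2
        rwa [LawfulSingleton.insert_empty_eq] at this
      · exact Q_restrict (ih1 T hT h0) _ (fun v hv => hv.1) (m' + 1) (by omega))
    have h1 := hH ∅ (by simp)
    have h2 : lk G (∅ : Finset V) = Set.univ := by
      ext v
      simp [lk]
    rw [h2, Finset.card_empty] at h1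
    exact ⟨inferInstance, fun A i hi => h1 A (Set.subset_univ _) i hi⟩
  | dim G h =>
    refine ⟨inferInstance, fun A i hi => lv_dim G A i fun T hT _ => ?_⟩
    have := h T hT
    omega
  | few G h =>
    refine ⟨inferInstance, fun A i hi => lv_few G _ i A rfl (by omega) ?_⟩
    have h1 := Set.ncard_le_card A
    omega
  | split G s t hst hsq _ _ _ _ ih1 ih2 ih3 ih4 => exact Q_split G s t hst hsq ih1 ih2 ih3 ih4
  | full G A _ ih => exact Q_emb G _ (SimpleGraph.Embedding.induce A) ih
  | join G H _ _ ih1 ih2 => exact Q_join G H ih1 ih2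
  | succ G _ ih => exact ⟨ih.1, fun A i hi => ih.2 A i (by omega)⟩
  | pred G _ ih => exact ⟨ih.1, fun A i hi => ih.2 A i (by omega)⟩
  | del G s t hst _ _ ih1 ih2 => exact Q_del G s t hst ih1 ih2
  | loc G B hB _ ih => exact Q_loc G B hB ih
  | vert G v _ _ ih1 ih2 => exact Q_vert G v ih1 ih2
  | glue G A B hAB hno _ _ _ ih1 ih2 ih3 => exact Q_glue G A B hAB hno ih1 ih2 ih3
  | iso G H e _ ih => exact Q_emb G H e.some.symm.toEmbedding ih

/-- The hereditary vanishing above the middle: for every simplex `T` (also the empty one) and every full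
subcomplex `A` of its link there are no nonzero `ℓ²` harmonic `i`-chains for `A` if `2 i > n - |T|`. -/
def Hered (n : ℕ) {V : Type} [Fintype V] [LinearOrder V] (G : SimpleGraph V) : Prop :=
  ∀ T : Finset V, G.IsClique (T : Set V) → ∀ A : Finset V, (A : Set V) ⊆ lk G T → ∀ i : ℕ,
    n < 2 * i + T.card → L2Van (G.induce (A : Set V)) i

section Fin

variable {V : Type} [Fintype V] [LinearOrder V] {G : SimpleGraph V} {n : ℕ}

theorem lv_fin (A : Set V) (i : ℕ) :
    LV (G.induce A) i ↔ ∀ B : Finset V, (B : Set V) = A → L2Van (G.induce (B : Set V)) i := by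
  classical
  constructor
  · rintro h B rfl
    exact h _ _
  · intro h
    have h1 : ((Set.toFinite A).toFinset : Set V) = A := Set.Finite.coe_toFinset _
    have h2 := lv_of (h _ h1)
    rwa [h1] at h2

theorem abv_of_hered (hS : HSph n G) (h : Hered n G) :
    ∀ T : Finset V, G.IsClique (T : Set V) → Abv G (lk G T) (n - T.card) := by
  classical
  intro T hT A hA i hi
  rw [lv_fin]
  rintro B rfl
  exact h T hT B hA i (by omega)

theorem hered_of_abv (hS : HSph n G)
    (h : ∀ T : Finset V, G.IsClique (T : Set V) → Abv G (lk G T) (n - T.card)) : Hered n G := by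
  intro T hT A hA i hi
  have := Pool.Agent.R703.CW.card_le_of_hsph hS T hT
  exact h T hT A hA i (by omega) _ _

/-- the class `AM` -/
theorem hered_AM (h : AM n G) : Hered n G := by
  intro T hT A hA i hi
  exact (P_of_AM h).2 T hT A (fun a ha t ht => (hA ha t ht).symm) i hi _ _

/-- the class `ER` -/
theorem hered_ER (hS : HSph n G)
    (h : ∀ T : Finset V, G.IsClique (T : Set V) → ER (n - T.card) (G.induce (lk G T))) : Hered n G :=
  hered_of_abv hS fun T hT => abv_of_Q (Q_of_ER (h T hT))

/-- the reduction -/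
theorem hered_iff (hS : HSph n G) : Hered n G ↔
    ∀ (T : Finset V) (m : ℕ), G.IsClique (T : Set V) → T.card + (2 * m + 1) = n → 1 ≤ m →
      ∀ U : Finset V, (∀ v, v ∈ U ↔ v ∈ lk G T ∧ chiL G (insert v T) ≠ 0) →
        L2Van (G.induce (U : Set V)) (m + 1) := by
  constructor
  · intro h T m hT hm _ U hU
    exact h T hT U (fun v hv => ((hU v).1 hv).1) (m + 1) (by omega)
  · intro hyp
    refine hered_of_abv hS (her t_BR hS fun T m hT hm hm' => ?_)
    rw [lv_fin]
    intro B hB
    refine hyp T m hT hm hm' B fun v => ?_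
    rw [← Finset.mem_coe, hB]
    rfl

/-- the zeros -/
theorem zeros (hS : HSph n G) (hH : Hered n G) (k : ℕ) :
    ((1 + 2 * X : Polynomial ℚ) ^ k ∣ fpoly G ↔
      ∀ T : Finset V, G.IsClique (T : Set V) → T.card < k → chiL G T = 0) ∧
    ((1 + 2 * X : Polynomial ℚ) ^ k ∣ fpoly G ↔
      ∀ (A : Finset V) (i : ℕ), n < 2 * i + k → L2Van (G.induce (A : Set V)) i) := by
  have hA := abv_of_hered hS hH
  have h1 := chi_iff_dvd hS hA k
  refine ⟨h1, h1.trans ⟨fun h A i hi => ?_, fun h => ?_⟩⟩
  · exact van_of_chi t_BR hS hA k h (A : Set V) i hi _ _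
  · refine chi_of_van t_BR hS hA k fun A i hi => ?_
    rw [lv_fin]
    rintro B rfl
    exact h B i hi

/-- Singer for hereditary spheres -/
theorem singer_hered (hS : HSph n G) (hH : Hered n G) (i : ℕ) (hi : 2 * i ≠ n) : L2Van G i := by
  refine singer_of_above hS (fun j hj => ?_) i hi
  have h1 := hH ∅ (by simp) Finset.univ (by intro v _ u hu; exact absurd hu (Finset.notMem_empty u)) j
    (by simpa using hj)
  have h2 := lv_of h1
  rw [Finset.coe_univ, lv_univ] at h2
  exact h2 _ _

/-- odd dimension: from the proper links and a double zero -/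
theorem odd_double {m : ℕ} (hn : n = 2 * m + 1) (hS : HSph n G)
    (hH : ∀ T : Finset V, G.IsClique (T : Set V) → T.Nonempty → ∀ A : Finset V, (A : Set V) ⊆ lk G T →
      ∀ i : ℕ, n < 2 * i + T.card → L2Van (G.induce (A : Set V)) i)
    (h2 : (1 + 2 * X : Polynomial ℚ) ^ 2 ∣ fpoly G) :
    Hered n G ∧ (1 + 2 * X : Polynomial ℚ) ^ 3 ∣ fpoly G := by
  classical
  subst hn
  have hT := (t_TAY V G 2).1 h2 1 (by norm_num)
  have hab : ∀ T : Finset V, G.IsClique (T : Set V) → T.Nonempty →
      Abv G (lk G T) (2 * m + 1 - T.card) := by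
    intro T hT hT0 A hA i hi
    rw [lv_fin]
    rintro B rfl
    exact hH T hT hT0 B hA i (by omega)
  have hchi : ∀ v : V, chiL G {v} = 0 := by
    have h2' : ∑ T : Finset V, (-1 : ℚ) ^ m *
        (if G.IsClique (T : Set V) ∧ T.card = 1 then chiL G T else 0) = 0 := by
      rw [← Finset.mul_sum]
      have : ∑ T : Finset V, (if G.IsClique (T : Set V) ∧ T.card = 1 then chiL G T else 0) = 0 := by
        convert hT
      rw [this, mul_zero]
    have h3 : ∀ S ∈ (Finset.univ : Finset (Finset V)),
        0 ≤ (-1 : ℚ) ^ m * (if G.IsClique (S : Set V) ∧ S.card = 1 then chiL G S else 0) := by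
      intro S _
      split_ifs with h
      · exact chi_sgn t_BR hS h.1 (hab S h.1 (Finset.card_pos.1 (by omega))) (by rw [h.2]; omega)
      · rw [mul_zero]
    rw [Finset.sum_eq_zero_iff_of_nonneg h3] at h2'
    intro v
    have h4 := h2' {v} (Finset.mem_univ _)
    rw [if_pos ⟨by simp, Finset.card_singleton v⟩] at h4
    exact (mul_eq_zero.1 h4).resolve_left (pow_ne_zero _ (by norm_num))
  have hHer : Hered (2 * m + 1) G := by
    refine (hered_iff hS).2 fun T m' hT hm hm' A hA => ?_
    rcases T.eq_empty_or_nonempty with h0 | h0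
    · subst h0
      rcases A.eq_empty_or_nonempty with h1 | ⟨v, hv⟩
      · subst h1
        have h5 := lv_empty G (m' + 1) (by omega)
        have h6 : ((∅ : Finset V) : Set V) = ∅ := Finset.coe_empty
        exact (lv_fin (∅ : Set V) (m' + 1)).1 h5 ∅ h6
      · have := ((hA v).1 hv).2
        rw [LawfulSingleton.insert_empty_eq] at this
        exact absurd (hchi v) this
    · exact hH T hT h0 A (fun v hv => ((hA v).1 hv).1) (m' + 1) (by omega)
  refine ⟨hHer, (zeros hS hHer 3).1.2 fun T hT hT3 => ?_⟩
  have hA := abv_of_hered hS hHer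
  obtain ⟨h0, h1⟩ | h0 : (T.card = 1 ∧ True) ∨ T.card ≠ 1 := by
    by_cases h : T.card = 1
    · exact Or.inl ⟨h, trivial⟩
    · exact Or.inr h
  · obtain ⟨v, rfl⟩ := Finset.card_eq_one.1 h0
    exact hchi v
  · have h1 := Pool.Agent.R703.CW.card_le_of_hsph hS T hT
    exact chi_of t_BR hT fun i => sing_link hS hT (hA T hT) (by omega)

/-- growth of the Betti numbers -/
theorem growth_zeros (hS : HSph n G) (hH : Hered n G) (k : ℕ)
    (hk : (1 + 2 * X : Polynomial ℚ) ^ k ∣ fpoly G) (A : Finset V) (ε : ℝ) (hε : 0 < ε) :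
    ∃ E : Finset (W (G.induce (A : Set V))), (1 : W (G.induce (A : Set V))) ∉ E ∧
      ∀ H : Subgroup (W (G.induce (A : Set V))), H.FiniteIndex →
        (∀ g ∈ E, ∀ x : W (G.induce (A : Set V)), x * g * x⁻¹ ∉ H) → ∀ i : ℕ, n < 2 * i + k →
        (Module.finrank ℝ (HInv (G.induce (A : Set V)) H i) : ℝ) ≤ ε * H.index :=
  Pool.Agent.R703.MO.growth_set (G.induce (A : Set V)) (fun i => n < 2 * i + k)
    (fun i hi => ((zeros hS hH k).2.1 hk) A i hi) ε hε

end Fin

end Pool.Agent.N13.EU
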