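import Pool.Agent.N13.EU.Defs
import Pool.Agent.R781.VS.Class
import Pool.Agent.R703.CW.Eul

/-!
# Euler characteristics of links and `ℓ²`-vanishing

By helper13.
-/

set_option autoImplicit false
set_option linter.unusedSectionVars false

namespace Pool.Agent.N13.EU

open Pool.Agent.W907.SG Pool.Agent.W907.SM Pool.Agent.TH652.Above Pool.Agent.R703.CW
open Pool.Agent.R781.VS (lv_del AR Q_of_AR)

/-- vanishing above the middle (of rank `r`) for all subsets of `D` -/
def Abv {V : Type} (G : SimpleGraph V) (D : Set V) (r : ℕ) : Prop :=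
  ∀ A : Set V, A ⊆ D → ∀ i : ℕ, r < 2 * i → LV (G.induce A) i

theorem lv_of {V : Type} [Fintype V] [LinearOrder V] {G : SimpleGraph V} {i : ℕ} (h : L2Van G i) :
    LV G i :=
  fun _ _ => ord V V _ _ _ _ G G i ⟨SimpleGraph.Iso.refl⟩ h

/-- the dimension -/
theorem lv_dim {V : Type} [Finite V] (G : SimpleGraph V) (A : Set V) (i : ℕ)
    (h : ∀ T : Finset V, G.IsClique (T : Set V) → (T : Set V) ⊆ A → T.card < i) :
    LV (G.induce A) i := by
  classical
  intro _ _ c hc
  funext w T
  refine hc.supp w T ?_
  rintro ⟨hT, hTi⟩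
  have h1 := h (T.map (Function.Embedding.subtype _)) ?_ ?_
  · rw [Finset.card_map] at h1
    omega
  · rw [Finset.coe_map]
    rintro _ ⟨x, hx, rfl⟩ _ ⟨y, hy, rfl⟩ hxy
    exact hT hx hy fun e => hxy (congrArg _ e)
  · rw [Finset.coe_map]
    rintro _ ⟨x, _, rfl⟩
    exact x.2

theorem lv_empty {V : Type} (G : SimpleGraph V) (i : ℕ) (hi : 1 ≤ i) : LV (G.induce (∅ : Set V)) i :=
  lempty _ _ i hi

/-- simplices -/
theorem lv_clique {V : Type} [Finite V] (G : SimpleGraph V) (A : Set V)
    (hA : ∀ a ∈ A, ∀ b ∈ A, a ≠ b → G.Adj a b) (i : ℕ) (hi : 1 ≤ i) : LV (G.induce A) i := by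
  classical
  have key : ∀ k : ℕ, ∀ B : Set V, B ⊆ A → B.ncard = k → LV (G.induce B) i := by
    intro k
    induction k with
    | zero =>
      intro B _ hk
      rw [Set.ncard_eq_zero] at hk
      subst hk
      exact lv_empty G i hi
    | succ k ih =>
      intro B hB hk
      obtain ⟨v, hv⟩ : B.Nonempty := by
        rw [← Set.ncard_pos]; omega
      have h1 := lv_cone G (B \ {v}) v (fun h => h.2 rfl)
        (fun a ha => hA v (hB hv) a (hB ha.1) fun e => ha.2 e.symm) i
        (ih (B \ {v}) (Set.sdiff_subset.trans hB) (by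
          rw [Set.ncard_sdiff_singleton_of_mem hv, hk]; omega))
      refine lv_set ?_ h1
      rw [Set.insert_sdiff_singleton, Set.insert_eq_of_mem hv]
  exact key _ A Set.Subset.rfl rfl

/-- **few vertices**: the `k`-th `ℓ²`-homology vanishes if there are at most `3 k - 1` vertices -/
theorem lv_few {V : Type} [Finite V] (G : SimpleGraph V) :
    ∀ (N k : ℕ) (A : Set V), A.ncard = N → 1 ≤ k → N + 1 ≤ 3 * k → LV (G.induce A) k := by
  classical
  intro N
  induction N using Nat.strong_induction_on with
  | _ N ih =>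
  intro k A hN hk hNk
  by_cases h2 : ∃ v ∈ A, ∃ x ∈ A, ∃ y ∈ A, x ≠ v ∧ y ≠ v ∧ x ≠ y ∧ ¬ G.Adj v x ∧ ¬ G.Adj v y
  · obtain ⟨v, hv, x, hx, y, hy, hxv, hyv, hxy, h3, h4⟩ := h2
    have hsub : A ∩ G.neighborSet v ⊆ A \ {v, x, y} := by
      rintro u ⟨hu, huv⟩
      refine ⟨hu, ?_⟩
      rintro (rfl | rfl | rfl)
      · exact G.loopless.irrefl _ huv
      · exact h3 huv
      · exact h4 huv
    have hc3 : ({v, x, y} : Set V).ncard = 3 := Set.ncard_eq_three.2 ⟨v, x, y, hxv.symm, hyv.symm, hxy, rfl⟩
    have hc : (A \ {v, x, y}).ncard = N - 3 := by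
      rw [Set.ncard_sdiff (by rintro u (rfl | rfl | rfl) <;> assumption), hN, hc3]
    have hN3 : 3 ≤ N := by
      rw [← hc3, ← hN]
      exact Set.ncard_le_ncard (by rintro u (rfl | rfl | rfl) <;> assumption)
    have hle := Set.ncard_le_ncard hsub
    rw [hc] at hle
    refine lv_add G A v hv k (ih (N - 1) (by omega) k _ (by
      rw [Set.ncard_sdiff_singleton_of_mem hv, hN]) hk (by omega)) fun j hj => ?_
    exact ih _ (by omega) j _ rfl (by omega) (by omega)
  · push Not at h2
    by_cases h3 : ∃ v ∈ A, ∃ x ∈ A, x ≠ v ∧ ¬ G.Adj v x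
    · obtain ⟨v, hv, x, hx, hxv, h4⟩ := h3
      refine lsusp _ _ (⟨v, hv⟩ : ↥A) ⟨x, hx⟩ k (fun e => hxv (congrArg Subtype.val e).symm) h4 ?_
      rintro ⟨u, hu⟩ hu1 hu2
      have hu1' : u ≠ v := fun e => hu1 (Subtype.ext e)
      have hu2' : u ≠ x := fun e => hu2 (Subtype.ext e)
      refine ⟨?_, ?_⟩
      · exact (h2 v hv x hx u hu hxv hu1' hu2'.symm h4).symm
      · by_contra h5
        have h6 := h2 x hx v hv u hu hxv.symm hu2' hu1'.symm (fun h => h4 h.symm)
        exact h5 h6.symm
    · push Not at h3
      exact lv_clique G A (fun a ha b hb hab => h3 a ha b hb hab.symm) k hk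

/-- from `D` to all subsets -/
theorem descend {V : Type} [Finite V] (G : SimpleGraph V) (D : Set V) (i : ℕ) (h0 : LV (G.induce D) i)
    (h : ∀ w ∈ D, ∀ Y : Set V, Y ⊆ D ∩ G.neighborSet w → LV (G.induce Y) i) :
    ∀ A : Set V, A ⊆ D → LV (G.induce A) i := by
  classical
  have key : ∀ k : ℕ, ∀ A : Set V, A ⊆ D → (D \ A).ncard = k → LV (G.induce A) i := by
    intro k
    induction k with
    | zero =>
      intro A hA hk
      rw [Set.ncard_eq_zero, Set.sdiff_eq_empty] at hk
      exact lv_set (Set.Subset.antisymm hA hk) h0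
    | succ k ih =>
      intro A hA hk
      obtain ⟨w, hw⟩ : (D \ A).Nonempty := by
        rw [← Set.ncard_pos]; omega
      refine lv_del G A w hw.2 i (ih (insert w A) (Set.insert_subset hw.1 hA) ?_)
        (h w hw.1 _ (Set.inter_subset_inter_left _ hA))
      have h1 : D \ insert w A = (D \ A) \ {w} := by
        ext x
        simp only [Set.mem_sdiff, Set.mem_insert_iff, Set.mem_singleton_iff]
        tauto
      rw [h1, Set.ncard_sdiff_singleton_of_mem hw, hk]
      omega
  exact fun A hA => key _ A hA rfl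

/-- from the subsets of `U` to the subsets of `D` -/
theorem ascend {V : Type} [Finite V] (G : SimpleGraph V) (D U : Set V) (i : ℕ)
    (hU : ∀ A : Set V, A ⊆ D → A ⊆ U → LV (G.induce A) i)
    (h : ∀ w ∈ D, w ∉ U → ∀ Y : Set V, Y ⊆ D ∩ G.neighborSet w → ∀ j, i = j + 1 → LV (G.induce Y) j) :
    ∀ A : Set V, A ⊆ D → LV (G.induce A) i := by
  classical
  have key : ∀ k : ℕ, ∀ A : Set V, A ⊆ D → (A \ U).ncard = k → LV (G.induce A) i := by
    intro k
    induction k with
    | zero =>
      intro A hA hk
      rw [Set.ncard_eq_zero, Set.sdiff_eq_empty] at hk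
      exact hU A hA hk
    | succ k ih =>
      intro A hA hk
      obtain ⟨w, hw⟩ : (A \ U).Nonempty := by
        rw [← Set.ncard_pos]; omega
      refine lv_add G A w hw.1 i (ih (A \ {w}) (Set.sdiff_subset.trans hA) ?_)
        (h w (hA hw.1) hw.2 _ (Set.inter_subset_inter_left _ hA))
      have h1 : (A \ {w}) \ U = (A \ U) \ {w} := by
        ext x
        simp only [Set.mem_sdiff, Set.mem_singleton_iff]
        tauto
      rw [h1, Set.ncard_sdiff_singleton_of_mem hw, hk]
      omega
  exact fun A hA => key _ A hA rfl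

section Link

variable {V : Type} [Fintype V] [LinearOrder V] {G : SimpleGraph V} {n : ℕ}

theorem lk_ins (T : Finset V) (v : V) :
    lk G T ∩ G.neighborSet v = lk G (insert v T) := by
  ext x
  simp only [lk, Set.mem_inter_iff, SimpleGraph.mem_neighborSet, Finset.mem_insert]
  constructor
  · rintro ⟨h1, h2⟩ u (rfl | hu)
    · exact h2.symm
    · exact h1 u hu
  · intro h
    exact ⟨fun u hu => h u (Or.inr hu), (h v (Or.inl rfl)).symm⟩

theorem clique_ins {T : Finset V} (hT : G.IsClique (T : Set V)) {v : V} (hv : v ∈ lk G T) :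
    G.IsClique ((insert v T : Finset V) : Set V) := by
  rw [Finset.coe_insert]
  exact hT.insert fun u hu _ => hv u hu

theorem card_ins {T : Finset V} {v : V} (hv : v ∈ lk G T) : (insert v T).card = T.card + 1 :=
  Finset.card_insert_of_notMem fun h => (hv v h).ne rfl

/-- Singer for the link -/
theorem sing_link (hS : HSph n G) {T : Finset V} (hT : G.IsClique (T : Set V))
    (hA : Abv G (lk G T) (n - T.card)) {i : ℕ} (hi : 2 * i ≠ n - T.card) :
    LV (G.induce (lk G T)) i := by
  classical
  have h1 := hsph_link hS T hT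
  exact lv_of (singer_of_above h1 (fun j hj => hA _ Set.Subset.rfl j hj _ _) i hi)

/-- Singer and vanishing Euler characteristic -/
theorem sing_chi (hB : S_BR) (hS : HSph n G) {T : Finset V} (hT : G.IsClique (T : Set V))
    (hA : Abv G (lk G T) (n - T.card)) (hc : chiL G T = 0) (i : ℕ) :
    LV (G.induce (lk G T)) i := by
  classical
  have h1 := hsph_link hS T hT
  have h2 : ∀ j, j ≠ (n - T.card) / 2 → L2Van (G.induce (lk G T)) j := fun j hj =>
    singer_of_above h1 (fun j hj => hA _ Set.Subset.rfl j hj _ _) j (by omega)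
  rw [hB V G T hT] at hc
  exact lv_of ((l2eul _ _ _ h2).2 hc i)

/-- conversely -/
theorem chi_of (hB : S_BR) {T : Finset V} (hT : G.IsClique (T : Set V))
    (h : ∀ i, LV (G.induce (lk G T)) i) : chiL G T = 0 := by
  classical
  rw [hB V G T hT]
  exact (l2eul _ _ 0 fun j _ => h j _ _).1 fun j => h j _ _

/-- the sign of the Euler characteristic -/
theorem chi_sgn (hB : S_BR) (hS : HSph n G) {T : Finset V} (hT : G.IsClique (T : Set V))
    (hA : Abv G (lk G T) (n - T.card)) {m : ℕ} (hm : n - T.card = 2 * m) :
    0 ≤ (-1 : ℚ) ^ m * chiL G T := by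
  classical
  have h1 := hsph_link hS T hT
  rw [hB V G T hT]
  refine chi_sign _ fun j hj => singer_of_above h1 (fun j hj => hA _ Set.Subset.rfl j hj _ _) j (by omega)

/-- the Euler rule: full subcomplexes of a sphere of rank `2 m` with `χ = 0` -/
theorem euler_rule (hB : S_BR) (hS : HSph n G) {T : Finset V} (hT : G.IsClique (T : Set V)) {m : ℕ}
    (hm : n - T.card = 2 * m) (hA : Abv G (lk G T) (2 * m)) (hc : chiL G T = 0)
    (hw : ∀ w ∈ lk G T, Abv G (lk G (insert w T)) (2 * m - 1)) (h1 : 1 ≤ m) :
    Abv G (lk G T) (2 * m - 1) := by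
  intro A hAD i hi
  rcases Nat.lt_or_ge m i with h | h
  · exact hA A hAD i (by omega)
  · have hi' : i = m := by omega
    subst hi'
    refine descend G (lk G T) i (sing_chi hB hS hT (by rwa [hm]) hc i) (fun w hwT Y hY => ?_) A hAD
    rw [lk_ins] at hY
    exact hw w hwT Y hY i (by omega)

/-- rank one -/
theorem rank_one (hS : HSph n G) {T : Finset V} (hT : G.IsClique (T : Set V))
    (hn : T.card + 1 = n) : Abv G (lk G T) 1 := by
  classical
  have h1 := hsph_link hS T hT
  rw [show n - T.card = 1 by omega] at h1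
  have h2 := euler_hsph h1
  have hadj : ∀ a ∈ lk G T, ∀ b ∈ lk G T, ¬ G.Adj a b := by
    intro a ha b hb hab
    have h3 : (G.induce (lk G T)).IsClique (({⟨a, ha⟩, ⟨b, hb⟩} : Finset ↥(lk G T)) : Set ↥(lk G T)) := by
      rw [Finset.coe_pair, SimpleGraph.isClique_pair]
      exact fun _ => hab
    have h4 := card_le_of_hsph h1 _ h3
    rw [Finset.card_pair fun e => hab.ne (congrArg Subtype.val e)] at h4
    omega
  have hcl : Pool.Agent.W497.FS.cl (G.induce (lk G T)) Finset.univ =
      insert ∅ (Finset.univ.image fun v : ↥(lk G T) => ({v} : Finset ↥(lk G T))) := by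
    ext S
    rw [Pool.Agent.W497.FS.mem_cl, Finset.mem_insert, Finset.mem_image]
    constructor
    · rintro ⟨-, hS2⟩
      rcases S.eq_empty_or_nonempty with h | ⟨v, hv⟩
      · exact Or.inl h
      · right
        refine ⟨v, Finset.mem_univ _, ?_⟩
        symm
        rw [Finset.eq_singleton_iff_unique_mem]
        refine ⟨hv, fun x hx => ?_⟩
        by_contra hne
        exact hadj x.1 x.2 v.1 v.2 (hS2 x hx v hv hne)
    · rintro (rfl | ⟨v, -, rfl⟩)
      · exact ⟨Finset.subset_univ _, fun x hx => absurd hx (Finset.notMem_empty x)⟩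
      · refine ⟨Finset.subset_univ _, fun x hx y hy hxy => ?_⟩
        rw [Finset.mem_singleton] at hx hy
        exact absurd (hx.trans hy.symm) hxy
  rw [hcl, Finset.sum_insert, Finset.sum_image] at h2
  · simp only [Finset.card_empty, pow_zero, Finset.card_singleton, pow_one, Finset.sum_const,
      nsmul_eq_mul] at h2
    have h5 : Fintype.card ↥(lk G T) = 2 := by
      rw [Finset.card_univ] at h2
      have : (Fintype.card ↥(lk G T) : ℤ) = 2 := by linarith
      exact_mod_cast this
    intro A hA i hi
    rcases Nat.lt_or_ge 1 i with h | h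
    · refine lv_dim G A i fun S hS hSA => ?_
      refine lt_of_le_of_lt (Finset.card_le_one.2 fun a ha b hb => ?_) h
      by_contra hne
      exact hadj a (hA (hSA ha)) b (hA (hSA hb)) (hS ha hb hne)
    · have hi' : i = 1 := by omega
      subst hi'
      have h6 : A.ncard ≤ 2 := by
        refine (Set.ncard_le_ncard hA).trans (le_of_eq ?_)
        rw [← Nat.card_coe_set_eq, Nat.card_eq_fintype_card, h5]
      rcases Nat.lt_or_ge 1 A.ncard with h7 | h7
      · obtain ⟨a, b, hab, rfl⟩ := Set.ncard_eq_two.1 (by omega : A.ncard = 2)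
        refine lsusp _ _ (⟨a, Or.inl rfl⟩ : ↥({a, b} : Set V)) ⟨b, Or.inr rfl⟩ 1 ?_ ?_ ?_
        · exact fun e => hab (congrArg Subtype.val e)
        · exact hadj a (hA (Or.inl rfl)) b (hA (Or.inr rfl))
        · rintro ⟨u, rfl | rfl⟩ hu1 hu2
          · exact absurd rfl hu1
          · exact absurd rfl hu2
      · rcases Nat.eq_zero_or_pos A.ncard with h8 | h8
        · rw [Set.ncard_eq_zero] at h8
          subst h8
          exact lv_empty G 1 le_rfl
        · obtain ⟨a, rfl⟩ := Set.ncard_eq_one.1 (by omega : A.ncard = 1)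
          have h9 := lv_cone G ∅ a (Set.notMem_empty _) (fun x hx => absurd hx (Set.notMem_empty _)) 1
            (lv_empty G 1 le_rfl)
          exact lv_set (by simp) h9
  · exact fun x _ y _ h => Finset.singleton_injective h
  · rw [Finset.mem_image]
    rintro ⟨v, -, hv⟩
    exact Finset.singleton_ne_empty v hv

/-- adding vertices outside `U` -/
theorem ascend_one {V : Type} [Finite V] (G : SimpleGraph V) (D U : Set V) (i : ℕ) (hUD : U ⊆ D)
    (hU : LV (G.induce U) i)
    (h : ∀ w ∈ D, w ∉ U → ∀ Y : Set V, Y ⊆ D ∩ G.neighborSet w → ∀ j, i = j + 1 → LV (G.induce Y) j) :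
    LV (G.induce D) i := by
  classical
  have key : ∀ k : ℕ, ∀ A : Set V, U ⊆ A → A ⊆ D → (A \ U).ncard = k → LV (G.induce A) i := by
    intro k
    induction k with
    | zero =>
      intro A hUA hA hk
      rw [Set.ncard_eq_zero, Set.sdiff_eq_empty] at hk
      exact lv_set (Set.Subset.antisymm hk hUA) hU
    | succ k ih =>
      intro A hUA hA hk
      obtain ⟨w, hw⟩ : (A \ U).Nonempty := by
        rw [← Set.ncard_pos]; omega
      refine lv_add G A w hw.1 i (ih (A \ {w}) (fun x hx => ⟨hUA hx, fun e => hw.2 ?_⟩)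
        (Set.sdiff_subset.trans hA) ?_)
        (h w (hA hw.1) hw.2 _ (Set.inter_subset_inter_left _ hA))
      · rw [Set.mem_singleton_iff] at e
        exact e ▸ hx
      · have h1 : (A \ {w}) \ U = (A \ U) \ {w} := by
          ext x
          simp only [Set.mem_sdiff, Set.mem_singleton_iff]
          tauto
        rw [h1, Set.ncard_sdiff_singleton_of_mem hw, hk]
        omega
  exact key _ D hUD Set.Subset.rfl rfl

/-- **Reduction.** Vanishing above the middle for all full subcomplexes of all links follows if for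
each link of odd rank `2 m + 1 ≥ 3` the `(m+1)`-st `ℓ²`-homology of the full subcomplex spanned by the
vertices whose links have nonzero Euler characteristic vanishes. -/
theorem her (hB : S_BR) (hS : HSph n G)
    (hyp : ∀ (T : Finset V) (m : ℕ), G.IsClique (T : Set V) → T.card + (2 * m + 1) = n → 1 ≤ m →
      LV (G.induce {v | v ∈ lk G T ∧ chiL G (insert v T) ≠ 0}) (m + 1)) :
    ∀ T : Finset V, G.IsClique (T : Set V) → Abv G (lk G T) (n - T.card) := by
  classical
  have key : ∀ r : ℕ, ∀ T : Finset V, G.IsClique (T : Set V) → T.card + r = n →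
      Abv G (lk G T) r := by
    intro r
    induction r using Nat.strong_induction_on with
    | _ r ih =>
    intro T hT hr
    have even : ∀ i, r + 1 < 2 * i → ∀ A : Set V, A ⊆ lk G T → LV (G.induce A) i := by
      intro i hi A hA
      refine ascend G (lk G T) ∅ i (fun B _ hB0 => ?_) (fun w hw _ Y hY j hj => ?_) A hA
      · rw [Set.subset_empty_iff] at hB0
        subst hB0
        exact lv_empty G i (by omega)
      · rw [lk_ins] at hY
        have h1 := card_le_of_hsph hS _ (clique_ins hT hw)
        rw [card_ins hw] at h1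
        have h2 := ih (r - 1) (by omega) (insert w T) (clique_ins hT hw) (by
          rw [card_ins hw]; omega)
        exact h2 Y hY j (by omega)
    rcases Nat.even_or_odd' r with ⟨m, rfl | rfl⟩
    · -- even rank
      exact fun A hA i hi => even i (by omega) A hA
    · -- odd rank
      rcases Nat.eq_zero_or_pos m with h0 | h0
      · subst h0
        exact rank_one hS hT (by omega)
      · intro A hA i hi
        rcases Nat.lt_or_ge (m + 1) i with h3 | h3
        · exact even i (by omega) A hA
        · have hi' : i = m + 1 := by omega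
          subst hi'
          refine descend G (lk G T) (m + 1) (ascend_one G (lk G T)
            {v | v ∈ lk G T ∧ chiL G (insert v T) ≠ 0} (m + 1) (fun v hv => hv.1) (hyp T m hT hr h0)
            (fun w hw hwU Y hY j hj => ?_)) (fun w hw Y hY => ?_) A hA
          · rw [lk_ins] at hY
            have h2 := ih (2 * m) (by omega) (insert w T) (clique_ins hT hw) (by
              rw [card_ins hw]; omega)
            have hc : chiL G (insert w T) = 0 := by
              by_contra h
              exact hwU ⟨hw, h⟩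
            refine euler_rule hB hS (clique_ins hT hw) (m := m) (by rw [card_ins hw]; omega) h2 hc
              (fun u hu => ?_) h0 Y hY j (by omega)
            exact ih (2 * m - 1) (by omega) _ (clique_ins (clique_ins hT hw) hu) (by
              rw [card_ins hu, card_ins hw]; omega)
          · rw [lk_ins] at hY
            exact ih (2 * m) (by omega) (insert w T) (clique_ins hT hw) (by
              rw [card_ins hw]; omega) Y hY (m + 1) (by omega)
  intro T hT
  exact key _ T hT (by
    have := card_le_of_hsph hS T hT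
    omega)

/-- **the zeros**: from the Euler characteristics of the links to the full subcomplexes -/
theorem van_of_chi (hB : S_BR) (hS : HSph n G)
    (hH : ∀ T : Finset V, G.IsClique (T : Set V) → Abv G (lk G T) (n - T.card)) (k : ℕ)
    (hk : ∀ T : Finset V, G.IsClique (T : Set V) → T.card < k → chiL G T = 0) :
    ∀ A : Set V, ∀ i : ℕ, n < 2 * i + k → LV (G.induce A) i := by
  classical
  have key : ∀ r : ℕ, ∀ T : Finset V, G.IsClique (T : Set V) → T.card + r = n →
      ∀ A : Set V, A ⊆ lk G T → ∀ i : ℕ, n < 2 * i + k → LV (G.induce A) i := by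
    intro r
    induction r with
    | zero =>
      intro T hT hr A hA i hi
      rcases Nat.lt_or_ge (n - T.card) (2 * i) with h | h
      · exact hH T hT A hA i h
      · refine descend G (lk G T) i (sing_chi hB hS hT (hH T hT) (hk T hT (by omega)) i)
          (fun w hw Y hY => ?_) A hA
        have h1 := card_le_of_hsph hS _ (clique_ins hT hw)
        rw [card_ins hw] at h1
        omega
    | succ r ih =>
      intro T hT hr A hA i hi
      rcases Nat.lt_or_ge (n - T.card) (2 * i) with h | h
      · exact hH T hT A hA i h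
      · refine descend G (lk G T) i (sing_chi hB hS hT (hH T hT) (hk T hT (by omega)) i)
          (fun w hw Y hY => ?_) A hA
        rw [lk_ins] at hY
        exact ih (insert w T) (clique_ins hT hw) (by rw [card_ins hw]; omega) Y hY i hi
  intro A i hi
  have h1 : lk G (∅ : Finset V) = Set.univ := by
    ext v
    simp [lk]
  exact key n ∅ (by simp) (by simp) A (by rw [h1]; exact Set.subset_univ _) i hi

/-- conversely -/
theorem chi_of_van (hB : S_BR) (hS : HSph n G)
    (hH : ∀ T : Finset V, G.IsClique (T : Set V) → Abv G (lk G T) (n - T.card)) (k : ℕ)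
    (hk : ∀ A : Set V, ∀ i : ℕ, n < 2 * i + k → LV (G.induce A) i) :
    ∀ T : Finset V, G.IsClique (T : Set V) → T.card < k → chiL G T = 0 := by
  intro T hT hTk
  have h1 := card_le_of_hsph hS T hT
  refine chi_of hB hT fun i => ?_
  by_cases h : 2 * i = n - T.card
  · exact hk _ i (by omega)
  · exact sing_link hS hT (hH T hT) h

open Classical in
/-- the Euler characteristics of the links and their sums -/
theorem chi_sum (hB : S_BR) (hS : HSph n G)
    (hH : ∀ T : Finset V, G.IsClique (T : Set V) → Abv G (lk G T) (n - T.card)) (j : ℕ)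
    (hj : ∑ T : Finset V, (if G.IsClique (T : Set V) ∧ T.card = j then chiL G T else 0) = 0) :
    ∀ T : Finset V, G.IsClique (T : Set V) → T.card = j → chiL G T = 0 := by
  intro T hT hTj
  have h1 := card_le_of_hsph hS T hT
  rcases Nat.even_or_odd' (n - T.card) with ⟨m, hm | hm⟩
  · have h2 : ∑ T : Finset V, (-1 : ℚ) ^ m * (if G.IsClique (T : Set V) ∧ T.card = j then chiL G T else 0)
        = 0 := by
      rw [← Finset.mul_sum, hj, mul_zero]
    have h3 : ∀ S ∈ (Finset.univ : Finset (Finset V)),
        0 ≤ (-1 : ℚ) ^ m * (if G.IsClique (S : Set V) ∧ S.card = j then chiL G S else 0) := by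
      intro S _
      split_ifs with h
      · exact chi_sgn hB hS h.1 (hH S h.1) (by rw [h.2, ← hTj, hm])
      · rw [mul_zero]
    rw [Finset.sum_eq_zero_iff_of_nonneg h3] at h2
    have h4 := h2 T (Finset.mem_univ _)
    rw [if_pos ⟨hT, hTj⟩] at h4
    exact (mul_eq_zero.1 h4).resolve_left (pow_ne_zero _ (by norm_num))
  · refine chi_of hB hT fun i => sing_link hS hT (hH T hT) (by omega)

end Link

end Pool.Agent.N13.EU
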