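import Pool.Agent.W907.SG.Stmts2
import Pool.Agent.W907.SM.Defs

/-!
# The `f`-polynomial and the Euler characteristics of the links

By helper13.
-/

set_option autoImplicit false

namespace Pool.Agent.N13.EU

open Pool.Agent.W907.SG Pool.Agent.W907.SM

open Classical in
/-- the Euler characteristic of the right-angled Coxeter group of the link of the simplex `T` in the
flag complex of `G`: `∑_S (-1/2)^|S|` over the simplices `S` of the link -/
noncomputable def chiL {V : Type} [Fintype V] (G : SimpleGraph V) (T : Finset V) : ℚ :=
  ∑ S : Finset V, if Disjoint S T ∧ G.IsClique ((S ∪ T : Finset V) : Set V) then (-1 / 2 : ℚ) ^ S.card else 0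

open Classical in
/-- the `f`-polynomial of the flag complex of `G`: `∑_S X^|S|` over the simplices `S` (the empty simplex
included) -/
noncomputable def fpoly {V : Type} [Fintype V] (G : SimpleGraph V) : Polynomial ℚ :=
  ∑ S : Finset V, if G.IsClique (S : Set V) then Polynomial.X ^ S.card else 0

open Classical in
/-- TAY: the Taylor expansion of the `f`-polynomial at `-1/2` -/
def S_TAY : Prop := ∀ (V : Type) [Fintype V] (G : SimpleGraph V) (k : ℕ),
    (1 + 2 * Polynomial.X : Polynomial ℚ) ^ k ∣ fpoly G ↔ ∀ j < k,
      ∑ T : Finset V, (if G.IsClique (T : Set V) ∧ T.card = j then chiL G T else 0) = 0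

/-- BR: `chiL` is the Euler characteristic of the group of the link -/
def S_BR : Prop := ∀ (V : Type) [Fintype V] (G : SimpleGraph V) (T : Finset V) [Fintype ↥(lk G T)],
    G.IsClique (T : Set V) → chiL G T = chiW (G.induce (lk G T))

end Pool.Agent.N13.EU
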