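import Pool.Agent.N13.EU.More
import Pool.Agent.R703.CW.Main

/-!
# The Euler characteristic and the Singer conjecture for all flag homology spheres

By helper13.
-/

set_option autoImplicit false
set_option linter.unusedSectionVars false

namespace Pool.Agent.N13.EU

open Pool.Agent.W907.SG Pool.Agent.W907.SM Pool.Agent.TH652.Above Pool.Agent.R703.CW
open Pool.Agent.Y132.SI
open Polynomial (X C)

/-- in odd length the Euler characteristic is zero -/
theorem chi_odd {V : Type} [Fintype V] [LinearOrder V] {G : SimpleGraph V} {n : ℕ} (hS : HSph n G)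
    (hn : n % 2 = 1) : chiW G = 0 := by
  have h := (flagEul_of_hsph hS).eul.ds (-1 / 2 : ℚ)
  rw [chiW_eq]
  have e : (-1 : ℚ) ^ n = -1 := Odd.neg_one_pow (Nat.odd_iff.2 hn)
  rw [e, show (-1 - -1 / 2 : ℚ) = -1 / 2 by norm_num] at h
  have h2 : Pool.Agent.W497.FS.lam G Finset.univ = Pool.Agent.W497.FS.fe G Finset.univ (-1 / 2 : ℚ) := rfl
  rw [h2]
  linarith

/-- the equivalence of the vanishing of all the `ℓ²`-Betti numbers and of the Euler characteristic for all the flag homology
spheres of dimension at most `N - 1` -/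
def EulerIff (N : ℕ) : Prop :=
  ∀ n ≤ N, ∀ (V : Type) [Fintype V] [LinearOrder V] (G : SimpleGraph V), HSph n G →
    ((∀ i : ℕ, L2Van G i) ↔ chiW G = 0)

theorem eulerIff_of_singer {N : ℕ} (h : Singer N) : EulerIff N := fun n hn V _ _ G hS =>
  l2eul V G (n / 2) fun i hi => h n hn V G hS i (by omega)

theorem singer_of_eulerIff : ∀ {N : ℕ}, EulerIff N → Singer N := by
  intro N
  induction N with
  | zero =>
    intro _
    exact (singer_iff 0).2 fun m hm hmN => by omega
  | succ N ih =>
    intro h
    have h1 : Singer N := ih fun n hn => h n (by omega)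
    rcases Nat.even_or_odd N with hN | hN
    · intro n hn V _ _ G hS i hi
      rcases Nat.lt_or_ge N n with h2 | h2
      · have h3 : n = N + 1 := by omega
        have h4 := Nat.even_iff.1 hN
        exact (h n hn V G hS).2 (chi_odd hS (by omega)) i
      · exact h1 n h2 V G hS i hi
    · have h4 := Nat.odd_iff.1 hN
      exact (singer_iff (N + 1)).2 fun m hm hmN => (singer_iff N).1 h1 m hm (by omega)

theorem eulerIff_iff (N : ℕ) : EulerIff N ↔ Singer N := ⟨singer_of_eulerIff, eulerIff_of_singer⟩

/-- above the middle, for all the full subcomplexes -/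
def AboveAll (N : ℕ) : Prop :=
  ∀ n ≤ N, ∀ (V : Type) [Fintype V] [LinearOrder V] (G : SimpleGraph V), HSph n G →
    ∀ (A : Finset V) (i : ℕ), n < 2 * i → L2Van (G.induce (A : Set V)) i

theorem hered_of_singer {N n : ℕ} (h : Singer N) (hn : n ≤ N) {V : Type} [Fintype V] [LinearOrder V]
    {G : SimpleGraph V} (hS : HSph n G) : Hered n G := by
  classical
  refine her_of_singer hS fun T hT i hi => ?_
  exact lv_of (h (n - T.card) (by omega) _ _ (hsph_link hS T hT) i (by omega))

theorem aboveAll_iff (N : ℕ) : AboveAll N ↔ Singer N := by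
  constructor
  · intro h n hn V _ _ G hS i hi
    refine singer_of_above hS (fun j hj => ?_) i hi
    have h1 := lv_of (h n hn V G hS Finset.univ j hj)
    rw [Finset.coe_univ, lv_univ] at h1
    exact h1 _ _
  · intro h n hn V _ _ G hS A i hi
    exact hered_of_singer h hn hS ∅ (by simp) A (by intro v _ u hu; exact absurd hu (Finset.notMem_empty u)) i
      (by rw [Finset.card_empty]; omega)

end Pool.Agent.N13.EU
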