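import Pool.Agent.N13.EU.Cls

/-!
# Few vertices, and the Singer conjecture for all flag homology spheres

By helper13.
-/

set_option autoImplicit false
set_option linter.unusedSectionVars false

namespace Pool.Agent.N13.EU

open Pool.Agent.W907.SG Pool.Agent.W907.SM Pool.Agent.TH652.Above Pool.Agent.R703.CW
open Pool.Agent.Y132.SI
open Pool.Agent.R781.VS (AR Q_of_AR Q_restrict)
open Polynomial (X C)

section Fin

variable {V : Type} [Fintype V] [LinearOrder V] {G : SimpleGraph V} {n : ℕ}

/-- sufficient conditions for the reduction -/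
theorem hered_suf (hS : HSph n G)
    (hyp : ∀ (T : Finset V) (m : ℕ), G.IsClique (T : Set V) → T.card + (2 * m + 1) = n → 1 ≤ m →
      ∀ U : Finset V, (∀ v, v ∈ U ↔ v ∈ lk G T ∧ chiL G (insert v T) ≠ 0) →
        U.card ≤ 3 * m + 2 ∨ (∀ S : Finset V, G.IsClique (S : Set V) → S ⊆ U → S.card ≤ m) ∨
        ER (2 * m + 1) (G.induce (U : Set V))) : Hered n G := by
  refine (hered_iff hS).2 fun T m hT hm hm' U hU => ?_
  rcases hyp T m hT hm hm' U hU with h | h | h
  · exact lv_few G _ (m + 1) (U : Set V) (Set.ncard_coe_finset U) (by omega) (by omega) _ _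
  · exact lv_dim G (U : Set V) (m + 1) (fun S hS hSU => by
      have := h S hS (Finset.coe_subset.1 hSU)
      omega) _ _
  · exact (lv_univ _ _).1 ((Q_of_ER h).2 Set.univ (m + 1) (by omega)) _ _

theorem chiL_filter {W : Type} [Fintype W] [inst : DecidableEq W] (K : SimpleGraph W) (T : Finset W)
    [DecidablePred fun S : Finset W => Disjoint S T ∧ K.IsClique ((S ∪ T : Finset W) : Set W)] :
    chiL K T = ∑ S ∈ Finset.univ.filter
      (fun S : Finset W => Disjoint S T ∧ K.IsClique ((S ∪ T : Finset W) : Set W)),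
      (-1 / 2 : ℚ) ^ S.card := by
  have h0 : inst = fun a b => Classical.propDecidable (a = b) := Subsingleton.elim _ _
  subst h0
  rw [chiL, Finset.sum_filter]
  refine Finset.sum_congr rfl fun S _ => ?_
  by_cases h : Disjoint S T ∧ K.IsClique ((S ∪ T : Finset W) : Set W)
  · rw [if_pos h, if_pos h]
  · rw [if_neg h, if_neg h]

/-- the Euler characteristic of a link in a link -/
theorem chiL_ind (T : Finset V) (hT : G.IsClique (T : Set V)) [Fintype ↥(lk G T)]
    (v : ↥(lk G T)) : chiL (G.induce (lk G T)) {v} = chiL G (insert v.1 T) := by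
  classical
  rw [chiL_filter, chiL_filter]
  refine Finset.sum_bij (fun S _ => S.map (Function.Embedding.subtype _)) ?_ ?_ ?_ ?_
  · intro S hS
    rw [Finset.mem_filter] at hS ⊢
    obtain ⟨-, hS1, hS2⟩ := hS
    refine ⟨Finset.mem_univ _, ?_, ?_⟩
    · rw [Finset.disjoint_left] at hS1 ⊢
      intro a ha hav
      obtain ⟨b, hb, rfl⟩ := Finset.mem_map.1 ha
      rw [Finset.mem_insert] at hav
      rcases hav with h | h
      · exact hS1 hb (Finset.mem_singleton.2 (Subtype.ext h))
      · exact G.loopless.irrefl _ (b.2 _ h)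
    · intro a ha b hb hab
      have e : ∀ c, c ∈ ((S.map (Function.Embedding.subtype _) ∪ insert v.1 T : Finset V) : Set V) →
          (∃ c' : ↥(lk G T), c' ∈ S ∪ {v} ∧ c'.1 = c) ∨ c ∈ T := by
        intro c hc
        rw [Finset.mem_coe, Finset.mem_union, Finset.mem_insert, Finset.mem_map] at hc
        rcases hc with ⟨c', hc', rfl⟩ | rfl | hc
        · exact Or.inl ⟨c', Finset.mem_union_left _ hc', rfl⟩
        · exact Or.inl ⟨v, Finset.mem_union_right _ (Finset.mem_singleton_self _), rfl⟩
        · exact Or.inr hc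
      rcases e a ha with ⟨a', ha', rfl⟩ | ha' <;> rcases e b hb with ⟨b', hb', rfl⟩ | hb'
      · exact hS2 ha' hb' fun h => hab (congrArg Subtype.val h)
      · exact a'.2 b hb'
      · exact (b'.2 a ha').symm
      · exact hT ha' hb' hab
  · intro S _ S' _ h
    exact Finset.map_injective _ h
  · intro σ hσ
    rw [Finset.mem_filter] at hσ
    obtain ⟨-, hσ1, hσ2⟩ := hσ
    have h3 : ∀ x ∈ σ, x ∈ lk G T := by
      intro x hx u hu
      refine hσ2 (Finset.mem_coe.2 (Finset.mem_union_left _ hx))
        (Finset.mem_coe.2 (Finset.mem_union_right _ (Finset.mem_insert_of_mem hu))) ?_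
      rintro rfl
      exact (Finset.disjoint_left.1 hσ1 hx) (Finset.mem_insert_of_mem hu)
    refine ⟨σ.subtype (fun x => x ∈ lk G T), ?_, ?_⟩
    · rw [Finset.mem_filter]
      refine ⟨Finset.mem_univ _, ?_, ?_⟩
      · rw [Finset.disjoint_left]
        intro a ha hav
        rw [Finset.mem_subtype] at ha
        rw [Finset.mem_singleton] at hav
        subst hav
        exact (Finset.disjoint_left.1 hσ1 ha) (Finset.mem_insert_self _ _)
      · intro a ha b hb hab
        have e : ∀ c : ↥(lk G T), c ∈ ((σ.subtype (fun x => x ∈ lk G T) ∪ {v} : Finset _) : Set _) →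
            c.1 ∈ ((σ ∪ insert v.1 T : Finset V) : Set V) := by
          intro c hc
          rw [Finset.mem_coe, Finset.mem_union, Finset.mem_subtype, Finset.mem_singleton] at hc
          rw [Finset.mem_coe, Finset.mem_union, Finset.mem_insert]
          rcases hc with h | rfl
          · exact Or.inl h
          · exact Or.inr (Or.inl rfl)
        exact hσ2 (e a ha) (e b hb) fun h => hab (Subtype.ext h)
    · rw [Finset.subtype_map]
      exact Finset.filter_true_of_mem h3
  · intro S _
    rw [Finset.card_map]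

/-- from the links to all full subcomplexes -/
theorem her_of_singer (hS : HSph n G)
    (h : ∀ T : Finset V, G.IsClique (T : Set V) → ∀ i, n - T.card < 2 * i → LV (G.induce (lk G T)) i) :
    Hered n G := by
  classical
  have key : ∀ r : ℕ, ∀ T : Finset V, G.IsClique (T : Set V) → T.card + r = n →
      Abv G (lk G T) r := by
    intro r
    induction r using Nat.strong_induction_on with
    | _ r ih =>
    intro T hT hr A hA i hi
    refine descend G (lk G T) i (h T hT i (by omega)) (fun w hw Y hY => ?_) A hA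
    rw [lk_ins] at hY
    have h1 := card_le_of_hsph hS _ (clique_ins hT hw)
    rw [card_ins hw] at h1
    exact ih (r - 1) (by omega) (insert w T) (clique_ins hT hw) (by rw [card_ins hw]; omega) Y hY i
      (by omega)
  refine hered_of_abv hS fun T hT => ?_
  exact key _ T hT (by
    have := card_le_of_hsph hS T hT
    omega)

end Fin

/-- The statement of the Singer conjecture for the right-angled Coxeter groups of all flag homology spheres of
dimension at most `N - 1`. -/
def Singer (N : ℕ) : Prop :=
  ∀ n ≤ N, ∀ (V : Type) [Fintype V] [LinearOrder V] (G : SimpleGraph V), HSph n G →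
    ∀ i : ℕ, 2 * i ≠ n → L2Van G i

/-- **the Singer conjecture for all flag homology spheres is equivalent to the vanishing of one `ℓ²`-Betti number of
the subcomplex spanned by the vertices whose links have nonzero Euler characteristic** -/
theorem singer_iff (N : ℕ) : Singer N ↔
    ∀ m : ℕ, 1 ≤ m → 2 * m + 1 ≤ N → ∀ (V : Type) [Fintype V] [LinearOrder V] (G : SimpleGraph V),
      HSph (2 * m + 1) G → ∀ U : Finset V, (∀ v, v ∈ U ↔ chiL G {v} ≠ 0) →
        L2Van (G.induce (U : Set V)) (m + 1) := by
  classical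
  constructor
  · intro h m hm hmN V _ _ G hS U _
    have hH : Hered (2 * m + 1) G := by
      refine her_of_singer hS fun T hT i hi => ?_
      exact lv_of (h (2 * m + 1 - T.card) (by omega) _ _ (hsph_link hS T hT) i (by omega))
    exact hH ∅ (by simp) U (by intro v _ u hu; exact absurd hu (Finset.notMem_empty u)) (m + 1)
      (by rw [Finset.card_empty]; omega)
  · intro h n hn V _ _ G hS i hi
    refine singer_hered hS ((hered_iff hS).2 fun T m hT hm hm' U hU => ?_) i hi
    have h1 : HSph (2 * m + 1) (G.induce (lk G T)) := by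
      have := hsph_link hS T hT
      rwa [show n - T.card = 2 * m + 1 by omega] at this
    have h2 := lv_of (h m hm' (by omega) _ (G.induce (lk G T)) h1
      (Finset.univ.filter fun v => chiL (G.induce (lk G T)) {v} ≠ 0) (fun v => by simp))
    rw [lv_sub] at h2
    have h3 : LV (G.induce (U : Set V)) (m + 1) := by
      refine lv_set ?_ h2
      ext v
      rw [Finset.mem_coe, hU]
      constructor
      · rintro ⟨hv1, hv2⟩
        refine ⟨⟨v, hv1⟩, ?_, rfl⟩
        rw [Finset.mem_coe, Finset.mem_filter]
        exact ⟨Finset.mem_univ _, by rwa [chiL_ind T hT]⟩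
      · rintro ⟨v', hv', rfl⟩
        rw [Finset.mem_coe, Finset.mem_filter, chiL_ind T hT] at hv'
        exact ⟨v'.2, hv'.2⟩
    exact h3 _ _

open Finset in
/-- the `γ`-polynomial -/
theorem gam_dvd {n g : ℕ} (hg : 2 * g ≤ n) (f : Polynomial ℚ) (c : ℕ → ℚ)
    (h : f = ∑ i ∈ range (g + 1), C (c i) * (X ^ i * (1 + X) ^ i * (1 + 2 * X) ^ (n - 2 * i))) :
    (1 + 2 * X : Polynomial ℚ) ^ (n - 2 * g) ∣ f := by
  rw [h]
  refine Finset.dvd_sum fun i hi => ?_
  rw [Finset.mem_range] at hi
  exact Dvd.dvd.mul_left (Dvd.dvd.mul_left (pow_dvd_pow _ (by omega)) _) _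

open Finset in
/-- **the degree of the `γ`-polynomial** is the largest degree in which some special subgroup has
nonzero `ℓ²`-homology -/
theorem gam_deg {V : Type} [Fintype V] [LinearOrder V] {G : SimpleGraph V} {n : ℕ} (hS : HSph n G)
    (hH : Hered n G) {g : ℕ} (hg : 2 * g ≤ n) (c : ℕ → ℚ) (hc : c g ≠ 0)
    (h : fpoly G = ∑ i ∈ range (g + 1), C (c i) * (X ^ i * (1 + X) ^ i * (1 + 2 * X) ^ (n - 2 * i))) :
    (∀ (A : Finset V) (i : ℕ), g < i → L2Van (G.induce (A : Set V)) i) ∧
      ∃ A : Finset V, ¬ L2Van (G.induce (A : Set V)) g := by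
  have h1 : ∀ (A : Finset V) (i : ℕ), g < i → L2Van (G.induce (A : Set V)) i := fun A i hi =>
    (zeros hS hH (n - 2 * g)).2.1 (gam_dvd hg _ c h) A i (by omega)
  refine ⟨h1, ?_⟩
  by_contra hcon
  push Not at hcon
  have h2 := (zeros hS hH (n - 2 * g + 1)).2.2 fun A i hi => by
    rcases Nat.lt_or_ge g i with h3 | h3
    · exact h1 A i h3
    · have : i = g := by omega
      subst this
      exact hcon A
  have h3 : fpoly G = (1 + 2 * X) ^ (n - 2 * g) *
      ∑ i ∈ range (g + 1), C (c i) * (X ^ i * (1 + X) ^ i * (1 + 2 * X) ^ (2 * g - 2 * i)) := by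
    rw [h, Finset.mul_sum]
    refine Finset.sum_congr rfl fun i hi => ?_
    rw [Finset.mem_range] at hi
    rw [show n - 2 * i = (n - 2 * g) + (2 * g - 2 * i) by omega, pow_add]
    ring
  rw [h3, pow_succ] at h2
  have h4 : (1 + 2 * X : Polynomial ℚ) ≠ 0 := by
    intro h0
    have := congrArg (Polynomial.eval 0) h0
    simp at this
  have h5 := (mul_dvd_mul_iff_left (pow_ne_zero _ h4)).1 h2
  have h6 := Polynomial.eval_dvd (x := (-1 / 2 : ℚ)) h5
  have h7 : Polynomial.eval (-1 / 2 : ℚ) (1 + 2 * X : Polynomial ℚ) = 0 := by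
    rw [Polynomial.eval_add, Polynomial.eval_mul, Polynomial.eval_one, Polynomial.eval_X,
      Polynomial.eval_ofNat]
    norm_num
  rw [h7, zero_dvd_iff, Polynomial.eval_finsetSum, Finset.sum_range_succ, Finset.sum_eq_zero, zero_add] at h6
  · simp only [Polynomial.eval_mul, Polynomial.eval_C, Polynomial.eval_pow, Polynomial.eval_X,
      Polynomial.eval_add, Polynomial.eval_one, Nat.sub_self, pow_zero, mul_one] at h6
    rw [← mul_pow] at h6
    have := (mul_eq_zero.1 h6).resolve_left hc
    exact pow_ne_zero g (by norm_num) this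
  · intro i hi
    rw [Finset.mem_range] at hi
    rw [Polynomial.eval_mul, Polynomial.eval_mul, Polynomial.eval_pow (p := (1 + 2 * X : Polynomial ℚ)), h7,
      zero_pow (by omega), mul_zero, mul_zero]

/-- degenerate graphs -/
theorem degen {V : Type} [Finite V] (G : SimpleGraph V) (m : ℕ) (r : V → ℕ) (hr : Function.Injective r)
    (h : ∀ v, {u | G.Adj v u ∧ r u < r v}.ncard ≤ 3 * m + 2) :
    ∀ (A : Set V) (i : ℕ), m + 2 ≤ i → LV (G.induce A) i := by
  classical
  have key : ∀ k : ℕ, ∀ A : Set V, A.ncard = k → ∀ i, m + 2 ≤ i → LV (G.induce A) i := by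
    intro k
    induction k with
    | zero =>
      intro A hk i hi
      rw [Set.ncard_eq_zero] at hk
      subst hk
      exact lv_empty G i (by omega)
    | succ k ih =>
      intro A hk i hi
      obtain ⟨v, hv, hmax⟩ := Set.exists_max_image A r (Set.toFinite A) (by
        rw [← Set.ncard_pos]; omega)
      refine lv_add G A v hv i (ih (A \ {v}) (by
        rw [Set.ncard_sdiff_singleton_of_mem hv, hk]; omega) i hi) fun j hj => ?_
      have h1 : (A ∩ G.neighborSet v).ncard ≤ 3 * m + 2 := by
        refine (Set.ncard_le_ncard fun u hu => ?_).trans (h v)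
        exact ⟨hu.2, lt_of_le_of_ne (hmax u hu.1) fun e => hu.2.ne (hr e).symm⟩
      exact lv_few G _ j _ rfl (by omega) (by omega)
  exact fun A i hi => key _ A rfl i hi

end Pool.Agent.N13.EU
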